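import Pool.Agent.W907.SM.Final

/-!
# Singer's conjecture for the right-angled Coxeter groups of barycentric subdivisions, in all dimensions

`Clo.Cl (@GorBase) n G`: the flag complex of `G` (of dimension `n - 1`) is obtained from order complexes of graded
posets which are Gorenstein* over `F_2` (for example barycentric subdivisions of triangulated spheres) by
suspensions and stellar subdivisions of edges. The reduced `ℓ²`-homology of the Davis complex of the right-angled
Coxeter group with this nerve is concentrated in the middle dimension `n / 2`.
-/

namespace Pool.Agent.Results.MP_577489_gt.RightAngledSubdivisions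

open Pool.Agent.W907.SG Pool.Agent.W907.SM

/-- `ℓ²`-homology is concentrated in the middle dimension. -/
theorem result : ∀ (n : ℕ) (V : Type) [Fintype V] [LinearOrder V] (G : SimpleGraph V), Clo.Cl (@GorBase) n G →
    ∀ i : ℕ, 2 * i ≠ n → L2Van G i := by
  intro n V _ _ G h i hi
  exact closureGor n V G h i hi _ _

end Pool.Agent.Results.MP_577489_gt.RightAngledSubdivisions
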